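import Mathlib
import Pool.Agent.NearOne652.Pow

set_option autoImplicit false

open Finset

namespace Pool.Agent.Results.MP_452a87_nt.NearOnePowers

/-- **Algebraic powers of algebraic numbers close to one**: no polynomial relation of bounded
degree and height between the numbers `α ^ β_i`, where `α = 1 + t / (D H)` and the
`β_i = b_i / E` are rationally independent algebraic numbers (for instance `β, β^2, ..., β^(d-1)`
for `β` of degree `d`). -/
theorem result (K : Type) [Field K] [NumberField K] (σ : K →+* ℂ)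
    (r δ D E H M : ℕ) (B : ℝ) (hD : D ≠ 0) (hDB : (D : ℝ) ≤ B) (hE : E ≠ 0) (hEB : (E : ℝ) ≤ B)
    (t : K) (ht0 : t ≠ 0) (hti : IsIntegral ℤ t) (htB : ∀ φ : K →+* ℂ, ‖φ t‖ ≤ B)
    (b : Fin r → K) (hb : LinearIndependent ℚ b) (hbi : ∀ i, IsIntegral ℤ (b i))
    (hbB : ∀ (φ : K →+* ℂ) i, ‖φ (b i)‖ ≤ B)
    (F : MvPolynomial (Fin r) K) (hF0 : F ≠ 0) (hδ : F.totalDegree ≤ δ)
    (hFi : ∀ a, IsIntegral ℤ (MvPolynomial.coeff a F))
    (hFB : ∀ φ : K →+* ℂ, ∑ a ∈ F.support, ‖φ (MvPolynomial.coeff a F)‖ ≤ B)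
    (hM : F.support.card = M)
    (hH : (2 * (M.factorial : ℝ) * ((δ + 1) * B) ^ (4 * M)) ^ (Module.finrank ℚ K + 1)
      < (H : ℝ)) :
    MvPolynomial.eval₂ σ (fun i => (1 + σ (t / D) / H) ^ (σ (b i / E))) F ≠ 0 := by
  classical
  have hD1 : (1 : ℝ) ≤ D := by exact_mod_cast Nat.one_le_iff_ne_zero.2 hD
  have hB : 1 ≤ B := by linarith
  have hB0 : 0 ≤ B := by linarith
  have hδ0 : (0 : ℝ) ≤ δ := by positivity
  have hM1 : 1 ≤ M := by
    rw [← hM, Finset.one_le_card]
    exact MvPolynomial.support_nonempty.2 hF0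
  set B' : ℝ := (δ + 1) * B with hB'
  have hBB' : B ≤ B' := by
    rw [hB']
    nlinarith
  have hB'1 : 1 ≤ B' := hB.trans hBB'
  have hfac : (1 : ℝ) ≤ M.factorial := by exact_mod_cast Nat.succ_le_of_lt M.factorial_pos
  have hBH : B < H := by
    have h1 : B' ≤ B' ^ (4 * M) := le_self_pow₀ hB'1 (by omega)
    have h2 : B' ^ (4 * M) ≤ 2 * (M.factorial : ℝ) * B' ^ (4 * M) :=
      le_mul_of_one_le_left (by positivity) (by linarith)
    have h3 : 2 * (M.factorial : ℝ) * B' ^ (4 * M) ≤
        (2 * (M.factorial : ℝ) * B' ^ (4 * M)) ^ (Module.finrank ℚ K + 1) :=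
      le_self_pow₀ (by linarith) (by omega)
    linarith
  have hH0 : (0 : ℝ) < H := by linarith
  set α : ℂ := 1 + σ (t / D) / H with hα
  have hα0 : α ≠ 0 := by
    intro h
    have h1 : σ (t / D) / H = -1 := by
      rw [hα] at h
      exact eq_neg_of_add_eq_zero_right h
    have h2 : ‖σ (t / D) / (H : ℂ)‖ = 1 := by rw [h1, norm_neg, norm_one]
    rw [norm_div, Complex.norm_natCast, map_div₀, map_natCast, norm_div, Complex.norm_natCast] at h2
    have h3 : ‖σ t‖ / D ≤ B := (div_le_self (norm_nonneg _) hD1).trans (htB σ)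
    rw [div_eq_one_iff_eq hH0.ne'] at h2
    linarith
  set e : F.support ≃ Fin M := F.support.equivFinOfCardEq hM with he
  set b' : Fin M → K := fun j => ∑ i, ((e.symm j).1 i : K) * b i with hb'
  have key := Pool.Agent.NearOne652.powC K σ M D E H B' hD (hDB.trans hBB') hE (hEB.trans hBB')
    t ht0 hti (fun φ => (htB φ).trans hBB') b'
    (by
      intro j j' hjj
      apply e.symm.injective
      apply Subtype.ext
      have h1 := Fintype.linearIndependent_iff.1 hb
        (fun i => ((e.symm j).1 i : ℚ) - ((e.symm j').1 i : ℚ)) (by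
          have h2 : b' j - b' j' = 0 := sub_eq_zero.2 hjj
          rw [hb'] at h2
          simp only at h2
          rw [← Finset.sum_sub_distrib] at h2
          rw [← h2]
          refine Finset.sum_congr rfl fun i _ => ?_
          rw [Algebra.smul_def, map_sub, map_natCast, map_natCast]
          ring)
      ext i
      have h3 := h1 i
      have h4 : ((e.symm j).1 i : ℚ) = ((e.symm j').1 i : ℚ) := sub_eq_zero.1 h3
      exact_mod_cast h4)
    (by
      intro j
      exact IsIntegral.sum _ fun i _ => (Pool.Agent.NearOne652.natCast_integral _).mul (hbi i))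
    (by
      intro φ j
      rw [hb']
      simp only
      rw [map_sum]
      have h1 : (∑ i, (((e.symm j).1 i : ℕ) : ℝ)) ≤ δ := by
        have h2 := MvPolynomial.le_totalDegree (e.symm j).2
        rw [Finsupp.sum_fintype _ _ (fun _ => rfl)] at h2
        exact_mod_cast h2.trans hδ
      calc ‖∑ i, φ (((e.symm j).1 i : K) * b i)‖ ≤ ∑ i, ‖φ (((e.symm j).1 i : K) * b i)‖ :=
            norm_sum_le _ _
        _ ≤ ∑ i, (((e.symm j).1 i : ℕ) : ℝ) * B := by
            apply Finset.sum_le_sum
            intro i _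
            rw [map_mul, map_natCast, norm_mul, Complex.norm_natCast]
            exact mul_le_mul_of_nonneg_left (hbB φ i) (by positivity)
        _ = (∑ i, (((e.symm j).1 i : ℕ) : ℝ)) * B := by rw [Finset.sum_mul]
        _ ≤ δ * B := mul_le_mul_of_nonneg_right h1 hB0
        _ ≤ B' := by
            rw [hB']
            linarith)
    (fun j => MvPolynomial.coeff (e.symm j).1 F)
    (by
      intro h
      have h1 := congrFun h ⟨0, hM1⟩
      exact MvPolynomial.mem_support_iff.1 (e.symm ⟨0, hM1⟩).2 h1)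
    (fun j => hFi _)
    (by
      intro φ
      refine le_trans (le_of_eq ?_) ((hFB φ).trans hBB')
      rw [← Finset.sum_coe_sort F.support]
      exact Equiv.sum_comp e.symm (fun a => ‖φ (MvPolynomial.coeff a.1 F)‖))
    hH
  intro hzero
  apply key
  rw [← hzero, MvPolynomial.eval₂_eq', ← Finset.sum_coe_sort F.support]
  rw [← Equiv.sum_comp e.symm]
  refine Finset.sum_congr rfl fun j _ => ?_
  congr 1
  rw [Complex.cpow_def_of_ne_zero hα0]
  have h1 : ∀ i, (α ^ (σ (b i / E))) ^ ((e.symm j).1 i) =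
      Complex.exp (Complex.log α * (((e.symm j).1 i : ℂ) * σ (b i / E))) := by
    intro i
    rw [Complex.cpow_def_of_ne_zero hα0, ← Complex.exp_nat_mul]
    congr 1
    ring
  rw [Finset.prod_congr rfl fun i _ => h1 i, ← Complex.exp_sum, ← Finset.mul_sum]
  congr 2
  rw [hb']
  simp only
  rw [Finset.sum_div, map_sum]
  refine Finset.sum_congr rfl fun i _ => ?_
  rw [mul_div_assoc, map_mul, map_natCast]

end Pool.Agent.Results.MP_452a87_nt.NearOnePowers
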